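import Pool.Agent.N178.HX.StmF

/-!
# Combinatorics of the sums property (project GHC3 of helper178): S_SPI and S_SPB
-/

set_option autoImplicit false

namespace Pool.Agent.N400.HX

open Finset NumberField
open Pool.Agent.H204R3.CM (IsCMType)
open Pool.Agent.W547.KB (CMPair)
open Pool.Agent.N178.HX (sg SP SignB IndB S_SPI S_SPB)

noncomputable section

open ComplexEmbedding (conjugate)

lemma conj_conj {E : Type} [Field E] (φ : E →+* ℂ) : conjugate (conjugate φ) = φ :=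
  ComplexEmbedding.involutive_conjugate E φ

lemma sg_conj (P : CMPair) (σ : ℂ ≃+* ℂ) (φ : P.E →+* ℂ) :
    sg P σ (conjugate φ) = - sg P σ φ := by
  have h1 : (σ : ℂ →+* ℂ).comp (conjugate φ) = conjugate ((σ : ℂ →+* ℂ).comp φ) := by
    ext x
    rw [ComplexEmbedding.conjugate_coe_eq, RingHom.comp_apply, RingHom.comp_apply,
      ComplexEmbedding.conjugate_coe_eq,
      ← NumberField.IsCMField.complexEmbedding_complexConj P.E φ x]
    exact NumberField.IsCMField.complexEmbedding_complexConj P.E ((σ : ℂ →+* ℂ).comp φ) x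
  have h2 := P.isCMType ((σ : ℂ →+* ℂ).comp φ)
  unfold sg
  rw [h1]
  by_cases h : (σ : ℂ →+* ℂ).comp φ ∈ P.Φ
  · rw [if_pos h, if_neg (h2.1 h)]
  · rw [if_neg h, if_pos (by by_contra h3; exact h (h2.2 h3))]
    rfl

/-- complex conjugation after `σ` -/
def cj (σ : ℂ ≃+* ℂ) : ℂ ≃+* ℂ := σ.trans Complex.conjAe.toRingEquiv

lemma sg_cj (P : CMPair) (σ : ℂ ≃+* ℂ) (φ : P.E →+* ℂ) : sg P (cj σ) φ = - sg P σ φ := by
  have h1 : ((cj σ : ℂ ≃+* ℂ) : ℂ →+* ℂ).comp φ = conjugate ((σ : ℂ →+* ℂ).comp φ) := by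
    ext x
    rfl
  have h2 := P.isCMType ((σ : ℂ →+* ℂ).comp φ)
  unfold sg
  rw [h1]
  by_cases h : (σ : ℂ →+* ℂ).comp φ ∈ P.Φ
  · rw [if_pos h, if_neg (h2.1 h)]
  · rw [if_neg h, if_pos (by by_contra h3; exact h (h2.2 h3))]
    rfl

lemma sg_abs (P : CMPair) (σ : ℂ ≃+* ℂ) (φ : P.E →+* ℂ) : |sg P σ φ| = 1 := by
  unfold sg
  split_ifs <;> norm_num

open scoped Classical in
lemma pairing {E : Type} [Field E] [Fintype (E →+* ℂ)] {Ψ : Set (E →+* ℂ)} (hΨ : IsCMType Ψ)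
    (f : (E →+* ℂ) → ℤ) :
    ∑ φ, f φ = ∑ φ, (if φ ∈ Ψ then f φ + f (conjugate φ) else 0) := by
  have h1 : ∑ φ, f φ = ∑ φ, (if φ ∈ Ψ then f φ else 0) + ∑ φ, (if φ ∈ Ψ then 0 else f φ) := by
    rw [← Finset.sum_add_distrib]
    refine Finset.sum_congr rfl fun φ _ => ?_
    split_ifs <;> simp
  have h2 : ∑ φ, (if φ ∈ Ψ then 0 else f φ) = ∑ φ, (if φ ∈ Ψ then f (conjugate φ) else 0) := by
    set g : (E →+* ℂ) → ℤ := fun φ => if φ ∈ Ψ then 0 else f φ with hg
    have h3 : ∑ φ, g φ = ∑ φ, g (conjugate φ) :=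
      (Equiv.sum_comp (Function.Involutive.toPerm (conjugate : (E →+* ℂ) → (E →+* ℂ))
        (ComplexEmbedding.involutive_conjugate E)) g).symm
    rw [h3]
    refine Finset.sum_congr rfl fun φ _ => ?_
    rw [hg]
    by_cases h : φ ∈ Ψ
    · simp only [if_pos h, if_neg ((hΨ φ).1 h)]
    · have h4 : conjugate φ ∈ Ψ := by by_contra h3; exact h ((hΨ φ).2 h3)
      simp only [if_neg h, if_pos h4]
  rw [h1, h2, ← Finset.sum_add_distrib]
  refine Finset.sum_congr rfl fun φ _ => ?_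
  split_ifs <;> simp

theorem t_SPI : S_SPI := by
  classical
  intro K _ T B hB m N hm hN
  set c : ∀ k, ((T k).E →+* ℂ) → ℤ := fun k φ => m k φ - m k (conjugate φ) with hc
  have hodd : ∀ k φ, c k (conjugate φ) = - c k φ := by
    intro k φ
    rw [hc]
    simp only
    rw [conj_conj]
    ring
  set Ψ : ∀ k, Set ((T k).E →+* ℂ) := fun k => {φ | 0 < c k φ ∨ (c k φ = 0 ∧ φ ∈ (T k).Φ)}
    with hΨ
  have hcm : ∀ k, IsCMType (Ψ k) := by
    intro k φ
    have h1 := (T k).isCMType φ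
    have h2 := hodd k φ
    rw [hΨ]
    simp only [Set.mem_ofPred_eq]
    rw [h2]
    rcases lt_trichotomy (c k φ) 0 with h | h | h
    · constructor
      · rintro (h3 | ⟨h3, -⟩) <;> omega
      · intro h3
        exact absurd (Or.inl (by omega)) h3
    · rw [h]
      simp only [lt_irrefl, neg_zero, true_and, false_or]
      exact h1
    · constructor
      · rintro _ (h4 | ⟨h4, -⟩) <;> omega
      · intro _
        exact Or.inl h
  have hpos : ∀ k φ, φ ∈ Ψ k → 0 ≤ c k φ := by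
    rintro k φ (h | ⟨h, -⟩) <;> omega
  obtain ⟨σ₀, hσ₀⟩ := hB Ψ hcm
  have hsum : ∀ (σ : ℂ ≃+* ℂ) (k : K), ∑ φ, m k φ * sg (T k) σ φ =
      ∑ φ, (if φ ∈ Ψ k then c k φ * sg (T k) σ φ else 0) := by
    intro σ k
    rw [pairing (hcm k)]
    refine Finset.sum_congr rfl fun φ _ => ?_
    split_ifs
    · rw [sg_conj, hc]
      ring
    · rfl
  refine ⟨fun k φ => if φ ∈ Ψ k then (c k φ).toNat else 0, ?_, ?_, ?_⟩
  · intro k hk φ
    have h1 : c k φ = 0 := by
      rw [hc]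
      simp only
      rw [hm k hk, hm k hk, sub_zero]
    simp only [h1]
    split_ifs <;> rfl
  · have h1 := hN σ₀
    have h2 : ∑ k, ∑ φ, m k φ * sg (T k) σ₀ φ =
        ((∑ k, ∑ φ, (if φ ∈ Ψ k then (c k φ).toNat else 0) : ℕ) : ℤ) := by
      push_cast
      refine Finset.sum_congr rfl fun k _ => ?_
      rw [hsum]
      refine Finset.sum_congr rfl fun φ _ => ?_
      split_ifs with h
      · rw [Int.toNat_of_nonneg (hpos k φ h)]
        by_cases hk : k ∈ B
        · have h3 : sg (T k) σ₀ φ = 1 := by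
            unfold sg
            rw [if_pos ((hσ₀ k hk φ).1 h)]
          rw [h3, mul_one]
        · have h3 : c k φ = 0 := by
            rw [hc]
            simp only
            rw [hm k hk, hm k hk, sub_zero]
          rw [h3, zero_mul]
      · rfl
    rw [h2] at h1
    have h3 := le_abs_self (((∑ k, ∑ φ, (if φ ∈ Ψ k then (c k φ).toNat else 0) : ℕ) : ℤ))
    exact_mod_cast h3.trans h1
  · intro σ
    refine Finset.sum_congr rfl fun k _ => ?_
    rw [hsum]
    refine Finset.sum_congr rfl fun φ _ => ?_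
    by_cases h : φ ∈ Ψ k
    · simp only [if_pos h]
      rw [Int.toNat_of_nonneg (hpos k φ h)]
    · simp only [if_neg h]
      simp

open scoped Classical in
/-- summation over the blocks -/
lemma sum_blocks {K J M : Type} [Fintype K] [AddCommMonoid M] (b : K → J) (G : J → K → M)
    (hG : ∀ j k, b k ≠ j → G j k = 0) :
    ∑ k, G (b k) k = ∑ j ∈ univ.image b, ∑ k, G j k := by
  rw [Finset.sum_comm]
  refine Finset.sum_congr rfl fun k _ => ?_
  symm
  refine Finset.sum_eq_single (b k) (fun j _ hj => hG j k (Ne.symm hj)) ?_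
  intro h
  exact absurd (mem_image_of_mem b (mem_univ k)) h

theorem t_SPB : S_SPB := by
  classical
  intro K J _ T b hI hSP m N _ hN
  -- the parts of the combination
  set mj : J → ∀ k, ((T k).E →+* ℂ) → ℤ := fun j k φ => if b k = j then m k φ else 0 with hmj
  set F : J → (ℂ ≃+* ℂ) → ℤ := fun j σ => ∑ k, ∑ φ, mj j k φ * sg (T k) σ φ with hF
  have hmj0 : ∀ j k, b k ≠ j → ∀ φ, mj j k φ = 0 := by
    intro j k h φ
    rw [hmj]
    exact if_neg h
  have hmj1 : ∀ k φ, mj (b k) k φ = m k φ := by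
    intro k φ
    rw [hmj]
    exact if_pos rfl
  have hodd : ∀ j σ, F j (cj σ) = - F j σ := by
    intro j σ
    rw [hF]
    simp only [sg_cj, mul_neg, Finset.sum_neg_distrib]
  have hbd : ∀ j σ, F j σ ≤ ∑ k, ∑ φ, |mj j k φ| := by
    intro j σ
    rw [hF]
    refine Finset.sum_le_sum fun k _ => Finset.sum_le_sum fun φ _ => ?_
    refine (le_abs_self _).trans ?_
    rw [abs_mul, sg_abs, mul_one]
  have hmax : ∀ j, ∃ τ, ∀ σ, F j σ ≤ F j τ := by
    intro j
    obtain ⟨u, ⟨τ, hτ⟩, hu⟩ := Int.exists_greatest_of_bdd (P := fun z => ∃ σ, F j σ = z)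
      ⟨_, fun z ⟨σ, hσ⟩ => hσ ▸ hbd j σ⟩ ⟨_, RingEquiv.refl ℂ, rfl⟩
    exact ⟨τ, fun σ => hτ ▸ hu _ ⟨σ, rfl⟩⟩
  choose τ hτ using hmax
  have hnn : ∀ j, 0 ≤ F j (τ j) := by
    intro j
    have := hτ j (cj (τ j))
    rw [hodd] at this
    omega
  have habs : ∀ j σ, |F j σ| ≤ ((F j (τ j)).toNat : ℤ) := by
    intro j σ
    rw [Int.toNat_of_nonneg (hnn j), abs_le]
    have h1 := hτ j σ
    have h2 := hτ j (cj σ)
    rw [hodd] at h2
    constructor <;> omega
  have htot : ∀ σ, ∑ k, ∑ φ, m k φ * sg (T k) σ φ = ∑ j ∈ univ.image b, F j σ := by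
    intro σ
    rw [hF]
    rw [← sum_blocks b (fun j k => ∑ φ, mj j k φ * sg (T k) σ φ) (fun j k h =>
      Finset.sum_eq_zero fun φ _ => by rw [hmj0 j k h φ, zero_mul])]
    exact Finset.sum_congr rfl fun k _ => Finset.sum_congr rfl fun φ _ => by rw [hmj1]
  have hNj : ∑ j ∈ univ.image b, F j (τ j) ≤ N := by
    obtain ⟨σ, hσ⟩ := hI τ
    have h1 := (le_abs_self _).trans (hN σ)
    rw [htot σ] at h1
    refine le_trans (le_of_eq ?_) h1
    refine Finset.sum_congr rfl fun j _ => ?_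
    rw [hF]
    refine Finset.sum_congr rfl fun k _ => Finset.sum_congr rfl fun φ _ => ?_
    by_cases h : b k = j
    · congr 1
      unfold sg
      rw [hσ k φ, h]
    · rw [hmj0 j k h φ, zero_mul, zero_mul]
  have hex : ∀ j, ∃ a : ∀ k, ((T k).E →+* ℂ) → ℕ, (∀ k, b k ≠ j → ∀ φ, a k φ = 0) ∧
      ∑ k, ∑ φ, a k φ ≤ (F j (τ j)).toNat ∧
      ∀ σ : ℂ ≃+* ℂ, ∑ k, ∑ φ, (a k φ : ℤ) * sg (T k) σ φ = F j σ := by
    intro j
    exact hSP j (mj j) (F j (τ j)).toNat (fun k hk φ => hmj0 j k hk φ) (habs j)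
  choose a ha0 ha1 ha2 using hex
  refine ⟨fun k φ => a (b k) k φ, fun k hk => absurd (Set.mem_univ k) hk, ?_, ?_⟩
  · have h1 : ∑ k, ∑ φ, a (b k) k φ = ∑ j ∈ univ.image b, ∑ k, ∑ φ, a j k φ :=
      sum_blocks b (fun j k => ∑ φ, a j k φ) (fun j k h => Finset.sum_eq_zero fun φ _ =>
        ha0 j k h φ)
    have h2 : ∑ j ∈ univ.image b, ∑ k, ∑ φ, a j k φ ≤ ∑ j ∈ univ.image b, (F j (τ j)).toNat :=
      Finset.sum_le_sum fun j _ => ha1 j
    have h3 : ((∑ j ∈ univ.image b, (F j (τ j)).toNat : ℕ) : ℤ) ≤ N := by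
      push_cast
      refine le_trans (le_of_eq (Finset.sum_congr rfl fun j _ => ?_)) hNj
      exact Int.toNat_of_nonneg (hnn j)
    rw [h1]
    exact h2.trans (by exact_mod_cast h3)
  · intro σ
    rw [htot σ]
    have h1 : ∑ k, ∑ φ, (a (b k) k φ : ℤ) * sg (T k) σ φ =
        ∑ j ∈ univ.image b, ∑ k, ∑ φ, (a j k φ : ℤ) * sg (T k) σ φ :=
      sum_blocks b (fun j k => ∑ φ, (a j k φ : ℤ) * sg (T k) σ φ) (fun j k h =>
        Finset.sum_eq_zero fun φ _ => by rw [ha0 j k h φ, Nat.cast_zero, zero_mul])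
    rw [h1]
    exact Finset.sum_congr rfl fun j _ => ha2 j σ

end

end Pool.Agent.N400.HX
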