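import Mathlib
import Pool.Agent.R915.Stm2

/-!
# Poincaré reducibility, isogenies of elliptic curves with complex multiplication (for S_ALLT)
-/

set_option autoImplicit false
set_option linter.unusedSectionVars false

namespace Pool.Agent.N400.HX

open Module Pool.Agent.Y90 Pool.Agent.R915
open Pool.Agent.H204R3.CM (IsHodge)

noncomputable section

lemma per_smulQ (Y : AV) (c : ℚ) (v : Y.H) : Y.per (c • v) = (c : ℝ) • Y.per v := by
  have h1 := map_ratCast_smul Y.per ℚ ℝ c v
  rwa [Rat.cast_id] at h1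

/-- The periods of a basis form a real basis of the tangent space. -/
theorem realBasis (Y : AV) {ι : Type} [Finite ι] (b : Basis ι ℚ Y.H) :
    ∃ β : Basis ι ℝ Y.T, ∀ k, β k = Y.per (b k) := by
  classical
  let _ : Fintype ι := Fintype.ofFinite ι
  have h1 : ⊤ ≤ Submodule.span ℝ (Set.range fun i => Y.per (b i)) := by
    rw [← Y.span]
    refine Submodule.span_le.2 ?_
    rintro _ ⟨w, rfl⟩
    rw [← b.sum_repr w, map_sum]
    refine Submodule.sum_mem _ fun i _ => ?_
    rw [per_smulQ]
    exact Submodule.smul_mem _ _ (Submodule.subset_span ⟨i, rfl⟩)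
  have hfT : FiniteDimensional ℝ Y.T := FiniteDimensional.complexToReal Y.T
  have h2 := linearIndependent_of_top_le_span_of_card_eq_finrank h1 (by
    rw [← finrank_eq_card_basis b, Y.rank, finrank_real_of_complex])
  exact ⟨Basis.mk h2 h1, fun k => Basis.mk_apply _ _ _⟩

theorem ext_perR {Y : AV} {M : Type} [AddCommGroup M] [Module ℝ M] {f g : Y.T →ₗ[ℝ] M}
    (h : ∀ v, f (Y.per v) = g (Y.per v)) : f = g :=
  LinearMap.ext_on_range Y.span h

theorem per_inj (Y : AV) : Function.Injective Y.per := by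
  rw [injective_iff_map_eq_zero]
  intro v hv
  let b := finBasis ℚ Y.H
  obtain ⟨β, hβ⟩ := realBasis Y b
  have h1 : ∑ k, ((b.repr v k : ℚ) : ℝ) • β k = 0 := by
    rw [← hv]
    conv_rhs => rw [← b.sum_repr v]
    rw [map_sum]
    exact Finset.sum_congr rfl fun k _ => by rw [per_smulQ, hβ]
  have h2 := Fintype.linearIndependent_iff.1 β.linearIndependent _ h1
  have h3 : b.repr v = 0 := by
    ext k
    exact_mod_cast h2 k
  exact (b.repr.map_eq_zero_iff).1 h3

/-- The real extension of a rational linear map. -/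
theorem realExt (X Y : AV) (g : X.H →ₗ[ℚ] Y.H) :
    ∃ R : X.T →ₗ[ℝ] Y.T, ∀ v, R (X.per v) = Y.per (g v) := by
  let b := finBasis ℚ X.H
  obtain ⟨β, hβ⟩ := realBasis X b
  refine ⟨β.constr ℝ fun k => Y.per (g (b k)), fun v => ?_⟩
  conv_lhs => rw [← b.sum_repr v]
  conv_rhs => rw [← b.sum_repr v]
  rw [map_sum, map_sum, map_sum, map_sum]
  refine Finset.sum_congr rfl fun k _ => ?_
  rw [per_smulQ, map_smul, ← hβ, Basis.constr_basis, map_smul, per_smulQ]

/-- The tangent map of an injective homomorphism is injective. -/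
theorem tanInj {X Y : AV} {f : X.H →ₗ[ℚ] Y.H} {Ψ : X.T →ₗ[ℂ] Y.T}
    (hΨ : ∀ v, Ψ (X.per v) = Y.per (f v)) (hf : Function.Injective f) : Function.Injective Ψ := by
  obtain ⟨p, hp⟩ := LinearMap.exists_leftInverse_of_injective f (LinearMap.ker_eq_bot.2 hf)
  obtain ⟨R, hR⟩ := realExt Y X p
  have h1 : R.comp (Ψ.restrictScalars ℝ) = LinearMap.id := by
    refine ext_perR fun v => ?_
    rw [LinearMap.comp_apply, LinearMap.restrictScalars_apply, hΨ, hR, LinearMap.id_apply]
    congr 1
    exact LinearMap.congr_fun hp v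
  intro s t hst
  have h2 := LinearMap.congr_fun h1 s
  have h3 := LinearMap.congr_fun h1 t
  rw [LinearMap.comp_apply, LinearMap.restrictScalars_apply, LinearMap.id_apply] at h2 h3
  rw [← h2, ← h3, hst]

theorem hom_comp {X Y Z : AV} {f : X.H →ₗ[ℚ] Y.H} {g : Y.H →ₗ[ℚ] Z.H} (hf : IsHom X Y f)
    (hg : IsHom Y Z g) : IsHom X Z (g.comp f) := by
  obtain ⟨Ψ, hΨ⟩ := hf
  obtain ⟨Φ, hΦ⟩ := hg
  exact ⟨Φ.comp Ψ, fun v => by rw [LinearMap.comp_apply, hΨ, hΦ]; rfl⟩

/-- **Poincaré reducibility** -/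
theorem exists_retract {Y A : AV} (i : Y.H →ₗ[ℚ] A.H) (hi : IsHom Y A i)
    (hinj : Function.Injective i) :
    ∃ r : A.H →ₗ[ℚ] Y.H, IsHom A Y r ∧ ∀ y, r (i y) = y := by
  obtain ⟨E, Ψ, hl, hc, hp, hE⟩ := A.pol
  obtain ⟨Θ, hΘ⟩ := id hi
  have hΘi : Function.Injective Θ := tanInj hΘ hinj
  have hadd : ∀ u v w, Ψ (u + v) w = Ψ u w + Ψ v w := fun u v w => (hl w).map_add u v
  have hsmul : ∀ (c : ℂ) u w, Ψ (c • u) w = c * Ψ u w := fun c u w => (hl w).map_smul c u
  have hadd' : ∀ u v w, Ψ w (u + v) = Ψ w u + Ψ w v := by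
    intro u v w
    rw [hc (u + v) w, hadd, map_add, ← hc, ← hc]
  have hsmul' : ∀ (c : ℂ) u w, Ψ w (c • u) = starRingEnd ℂ c * Ψ w u := by
    intro c u w
    rw [hc (c • u) w, hsmul, map_mul, ← hc]
  have hrs : ∀ (r : ℝ) u w, Ψ (r • u) w = r * Ψ u w := by
    intro r u w
    rw [show r • u = (r : ℂ) • u from rfl, hsmul]
  have hrs' : ∀ (r : ℝ) u w, Ψ w (r • u) = r * Ψ w u := by
    intro r u w
    rw [show r • u = (r : ℂ) • u from rfl, hsmul', Complex.conj_ofReal]
  have hEadd : ∀ v v' w, E (v + v') w = E v w + E v' w := by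
    intro v v' w
    have : ((E (v + v') w : ℚ) : ℝ) = ((E v w + E v' w : ℚ) : ℝ) := by
      rw [Rat.cast_add, ← hE, ← hE, ← hE, map_add, hadd, Complex.add_im]
    exact_mod_cast this
  have hEadd' : ∀ v v' w, E w (v + v') = E w v + E w v' := by
    intro v v' w
    have : ((E w (v + v') : ℚ) : ℝ) = ((E w v + E w v' : ℚ) : ℝ) := by
      rw [Rat.cast_add, ← hE, ← hE, ← hE, map_add, hadd', Complex.add_im]
    exact_mod_cast this
  have hEsmul : ∀ (c : ℚ) v w, E (c • v) w = c * E v w := by
    intro c v w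
    have : ((E (c • v) w : ℚ) : ℝ) = ((c * E v w : ℚ) : ℝ) := by
      rw [Rat.cast_mul, ← hE, ← hE, per_smulQ, hrs, Complex.im_ofReal_mul]
    exact_mod_cast this
  have hEsmul' : ∀ (c : ℚ) v w, E w (c • v) = c * E w v := by
    intro c v w
    have : ((E w (c • v) : ℚ) : ℝ) = ((c * E w v : ℚ) : ℝ) := by
      rw [Rat.cast_mul, ← hE, ← hE, per_smulQ, hrs', Complex.im_ofReal_mul]
    exact_mod_cast this
  -- a vector whose Hermitian products with the image have imaginary part zero
  have key : ∀ w : A.T, (∀ z, (Ψ w (A.per (i z))).im = 0) → ∀ s, Ψ w (Θ s) = 0 := by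
    intro w hw s
    let D : Y.T →ₗ[ℝ] ℝ :=
      { toFun := fun s => (Ψ w (Θ s)).im
        map_add' := fun s t => by rw [map_add, hadd', Complex.add_im]
        map_smul' := fun r s => by
          have : Θ (r • s) = r • Θ s := (Θ.restrictScalars ℝ).map_smul r s
          rw [this, hrs']
          simp }
    have hD : D = 0 := ext_perR fun v => by
      change (Ψ w (Θ (Y.per v))).im = 0
      rw [hΘ]
      exact hw v
    have h1 : (Ψ w (Θ s)).im = 0 := LinearMap.congr_fun hD s
    have h2 : (Ψ w (Θ (Complex.I • s))).im = 0 := LinearMap.congr_fun hD (Complex.I • s)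
    rw [map_smul, hsmul', Complex.conj_I] at h2
    simp only [neg_mul, Complex.neg_im, Complex.mul_im, Complex.I_re, Complex.I_im, zero_mul,
      one_mul, zero_add] at h2
    exact Complex.ext (by simpa using h2) (by simpa using h1)
  -- the form on the image
  let Φ : Y.H →ₗ[ℚ] Module.Dual ℚ Y.H :=
    { toFun := fun y =>
        { toFun := fun z => E (i y) (i z)
          map_add' := fun z z' => by rw [map_add, hEadd']
          map_smul' := fun c z => by rw [map_smul, hEsmul']; rfl }
      map_add' := fun y y' => by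
        refine LinearMap.ext fun z => ?_
        change E (i (y + y')) (i z) = E (i y) (i z) + E (i y') (i z)
        rw [map_add, hEadd]
      map_smul' := fun c y => by
        refine LinearMap.ext fun z => ?_
        change E (i (c • y)) (i z) = c * E (i y) (i z)
        rw [map_smul, hEsmul] }
  have hΦ : ∀ y z, Φ y z = E (i y) (i z) := fun _ _ => rfl
  let Φ' : A.H →ₗ[ℚ] Module.Dual ℚ Y.H :=
    { toFun := fun x =>
        { toFun := fun z => E x (i z)
          map_add' := fun z z' => by rw [map_add, hEadd']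
          map_smul' := fun c z => by rw [map_smul, hEsmul']; rfl }
      map_add' := fun y y' => by
        refine LinearMap.ext fun z => ?_
        change E (y + y') (i z) = E y (i z) + E y' (i z)
        rw [hEadd]
      map_smul' := fun c y => by
        refine LinearMap.ext fun z => ?_
        change E (c • y) (i z) = c * E y (i z)
        rw [hEsmul] }
  have hΦ' : ∀ x z, Φ' x z = E x (i z) := fun _ _ => rfl
  have hΦi : Function.Injective Φ := by
    rw [injective_iff_map_eq_zero]
    intro y hy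
    have h1 := key (A.per (i y)) (fun z => by
      rw [hE, ← hΦ, hy]
      simp) (Y.per y)
    rw [hΘ] at h1
    by_contra h0
    have h2 : A.per (i y) ≠ 0 := by
      intro h3
      apply h0
      apply hinj
      rw [map_zero]
      apply per_inj A
      rw [h3, map_zero]
    have h3 := hp _ h2
    rw [h1] at h3
    simp at h3
  have hΦs : Function.Surjective Φ :=
    (LinearMap.injective_iff_surjective_of_finrank_eq_finrank
      (Subspace.dual_finrank_eq (K := ℚ) (V := Y.H)).symm).1 hΦi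
  let e : Y.H ≃ₗ[ℚ] Module.Dual ℚ Y.H := LinearEquiv.ofBijective Φ ⟨hΦi, hΦs⟩
  have he : ∀ y, e y = Φ y := fun _ => rfl
  let r : A.H →ₗ[ℚ] Y.H := e.symm.toLinearMap.comp Φ'
  have hr : ∀ x, Φ (r x) = Φ' x := fun x => e.apply_symm_apply (Φ' x)
  have hr' : ∀ x z, E (i (r x)) (i z) = E x (i z) := by
    intro x z
    rw [← hΦ, hr]
    rfl
  obtain ⟨R, hR⟩ := realExt A Y r
  -- the characterization of the projection
  have hchar : ∀ (u : A.T) (s : Y.T), Ψ (Θ (R u)) (Θ s) = Ψ u (Θ s) := by
    have hP : ∀ (z : Y.H) (u : A.T), (Ψ (Θ (R u) - u) (A.per (i z))).im = 0 := by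
      intro z
      let D : A.T →ₗ[ℝ] ℝ :=
        { toFun := fun u => (Ψ (Θ (R u) - u) (A.per (i z))).im
          map_add' := fun s t => by
            have : Θ (R (s + t)) - (s + t) = (Θ (R s) - s) + (Θ (R t) - t) := by
              rw [map_add, map_add]
              abel
            rw [this, hadd, Complex.add_im]
          map_smul' := fun c s => by
            have : Θ (R (c • s)) - c • s = c • (Θ (R s) - s) := by
              have h5 : Θ (c • R s) = c • Θ (R s) := (Θ.restrictScalars ℝ).map_smul c (R s)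
              rw [R.map_smul c s, h5, smul_sub]
            rw [this, hrs]
            simp }
      have hD : D = 0 := ext_perR fun v => by
        change (Ψ (Θ (R (A.per v)) - A.per v) (A.per (i z))).im = 0
        have h6 : Θ (R (A.per v)) - A.per v = A.per (i (r v) - v) := by
          rw [hR, hΘ, map_sub]
        rw [h6, hE, sub_eq_add_neg, hEadd, hr', ← hEadd, add_neg_cancel]
        have h7 : E 0 (i z) = 0 := by
          have := hEsmul 0 0 (i z)
          rwa [zero_smul, zero_mul] at this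
        rw [h7, Rat.cast_zero]
      exact fun u => LinearMap.congr_fun hD u
    intro u s
    have h8 := key (Θ (R u) - u) (fun z => hP z u) s
    have h9 : Θ (R u) = (Θ (R u) - u) + u := by abel
    rw [h9, hadd, h8, zero_add]
  have hRI : ∀ u, R (Complex.I • u) = Complex.I • R u := by
    intro u
    have h1 : ∀ s, Ψ (Θ (R (Complex.I • u) - Complex.I • R u)) (Θ s) = 0 := by
      intro s
      have h2 : Θ (R (Complex.I • u) - Complex.I • R u) =
          Θ (R (Complex.I • u)) + (-Complex.I) • Θ (R u) := by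
        rw [map_sub, Θ.map_smul Complex.I (R u), neg_smul, sub_eq_add_neg]
      rw [h2, hadd, hsmul, hchar, hchar, hsmul]
      ring
    have h3 : Θ (R (Complex.I • u) - Complex.I • R u) = 0 := by
      by_contra h4
      have h5 := hp _ h4
      rw [h1] at h5
      simp at h5
    have h4 := hΘi (h3.trans (map_zero Θ).symm)
    exact sub_eq_zero.1 h4
  refine ⟨r, ⟨{ toFun := R
                map_add' := map_add R
                map_smul' := fun c t => ?_ }, hR⟩, fun y => hΦi ?_⟩
  · have hdec : ∀ {T : Type} [AddCommGroup T] [Module ℂ T] (c : ℂ) (x : T),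
        c • x = c.re • x + c.im • (Complex.I • x) := by
      intro T _ _ c x
      conv_lhs => rw [← Complex.re_add_im c]
      rw [add_smul, mul_smul, Complex.coe_smul, Complex.coe_smul]
    rw [hdec c t, map_add, map_smul, map_smul, hRI, RingHom.id_apply, hdec c (R t)]
  · rw [hr]
    rfl

/-- Pullbacks of Hodge classes. -/
theorem hodge_comp {X Y : AV} (h : X.H →ₗ[ℚ] Y.H) (hh : IsHom X Y h)
    {κ : Type} {f : Y.H [⋀^κ]→ₗ[ℚ] ℚ} (hf : IsHodge Y.per f) :
    IsHodge X.per (f.compLinearMap h) := by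
  obtain ⟨Ψ, hΨ⟩ := hh
  obtain ⟨ψ, h1, h2⟩ := hf
  refine ⟨ψ.compLinearMap fun _ => Ψ.restrictScalars ℝ, fun v => ?_, fun z hz u => ?_⟩
  · rw [MultilinearMap.compLinearMap_apply, AlternatingMap.compLinearMap_apply]
    have h3 := h1 fun l => h (v l)
    rw [← h3]
    congr 1
    funext l
    exact hΨ (v l)
  · rw [MultilinearMap.compLinearMap_apply, MultilinearMap.compLinearMap_apply]
    refine Eq.trans ?_ (h2 z hz fun l => Ψ (u l))
    congr 1
    funext l
    exact Ψ.map_smul z (u l)

/-- Abelian subvarieties of abelian varieties all of whose Hodge classes belong to the system. -/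
theorem all_sub (𝒜 : Sys) {X C : AV} (i : X.H →ₗ[ℚ] C.H) (hi : IsHom X C i)
    (hinj : Function.Injective i) (hC : 𝒜.AllHodge C) : 𝒜.AllHodge X := by
  obtain ⟨r, hr, hri⟩ := exists_retract i hi hinj
  intro κ _ f hf
  have h1 := hC κ (f.compLinearMap r) (hodge_comp r hr hf)
  have h2 := 𝒜.pull i hi _ h1
  have h3 : (f.compLinearMap r).compLinearMap i = f := by
    ext v
    rw [AlternatingMap.compLinearMap_apply, AlternatingMap.compLinearMap_apply]
    congr 1
    funext k
    exact hri (v k)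
  rwa [h3] at h2

/-- The square root of `-d` on an elliptic curve. -/
theorem ell_data (Y : AV) (hdim : finrank ℚ Y.H = 2) {d : ℚ} (hd : 0 < d) (h : Y.H →ₗ[ℚ] Y.H)
    (hh : IsHom Y Y h) (hsq : ∀ w, h (h w) = -(d • w)) :
    ∃ (c : ℂ) (v : Y.H), c * c = -(d : ℂ) ∧ v ≠ 0 ∧ (∀ w, Y.per (h w) = c • Y.per w) ∧
      ∀ w, ∃! p : ℚ × ℚ, w = p.1 • v + p.2 • h v := by
  obtain ⟨Ψ, hΨ⟩ := hh
  have hT : finrank ℂ Y.T = 1 := by
    have := Y.rank
    omega
  obtain ⟨v, hv⟩ : ∃ v : Y.H, v ≠ 0 := by
    have : Nontrivial Y.H := Module.nontrivial_of_finrank_pos (R := ℚ) (by omega)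
    exact exists_ne 0
  have hpv : Y.per v ≠ 0 := fun h0 => hv (per_inj Y (h0.trans (map_zero _).symm))
  obtain ⟨c, hc⟩ : ∃ c : ℂ, ∀ t, Ψ t = c • t := by
    obtain ⟨c, hc⟩ := (finrank_eq_one_iff_of_nonzero' (Y.per v) hpv).1 hT (Ψ (Y.per v))
    refine ⟨c, fun t => ?_⟩
    obtain ⟨e, rfl⟩ := (finrank_eq_one_iff_of_nonzero' (Y.per v) hpv).1 hT t
    rw [map_smul, ← hc, smul_comm]
  have hper : ∀ w, Y.per (h w) = c • Y.per w := fun w => by rw [← hΨ, hc]
  have hcc : c * c = -(d : ℂ) := by
    have h1 := hper (h v)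
    rw [hsq, hper, smul_smul, map_neg, per_smulQ] at h1
    have h2 : (c * c + (d : ℂ)) • Y.per v = 0 := by
      rw [add_smul, ← h1]
      have : ((d : ℚ) : ℂ) • Y.per v = ((d : ℚ) : ℝ) • Y.per v := by
        rw [show ((d : ℚ) : ℂ) = (((d : ℚ) : ℝ) : ℂ) by push_cast; rfl]
        exact Complex.coe_smul _ _
      rw [this, neg_add_cancel]
    have h3 := (smul_eq_zero.1 h2).resolve_right hpv
    linear_combination h3
  have hindep : LinearIndependent ℚ ![v, h v] := by
    rw [LinearIndependent.pair_iff]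
    intro p q hpq
    have h1 : p • h v + q • -(d • v) = 0 := by
      have := congrArg h hpq
      rwa [map_add, map_smul, map_smul, hsq, map_zero] at this
    have h2 : (p * p + d * (q * q)) • v = 0 := by
      have h3 : p • (p • v + q • h v) - q • (p • h v + q • -(d • v)) = 0 := by
        rw [hpq, h1, smul_zero, smul_zero, sub_zero]
      rw [← h3]
      module
    have h3 := (smul_eq_zero.1 h2).resolve_right hv
    have h4 : 0 ≤ p * p := mul_self_nonneg p
    have h5 : 0 ≤ q * q := mul_self_nonneg q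
    have h6 : q * q = 0 := by nlinarith
    have h7 : p * p = 0 := by rw [h6] at h3; linarith
    exact ⟨mul_self_eq_zero.1 h7, mul_self_eq_zero.1 h6⟩
  have hspan : Submodule.span ℚ (Set.range ![v, h v]) = ⊤ :=
    hindep.span_eq_top_of_card_eq_finrank' (by rw [Fintype.card_fin, hdim])
  refine ⟨c, v, hcc, hv, hper, fun w => ?_⟩
  have hw : w ∈ Submodule.span ℚ (Set.range ![v, h v]) := by
    rw [hspan]
    trivial
  rw [Matrix.range_cons, Matrix.range_cons, Matrix.range_empty, Set.union_empty,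
    Set.singleton_union, Submodule.mem_span_pair] at hw
  obtain ⟨p, q, hpq⟩ := hw
  refine ⟨(p, q), hpq.symm, ?_⟩
  rintro ⟨p', q'⟩ h1
  simp only at h1
  have h2 : (p' - p) • v + (q' - q) • h v = 0 := by
    rw [sub_smul, sub_smul]
    have : (p' • v - p • v) + (q' • h v - q • h v) = (p' • v + q' • h v) - (p • v + q • h v) := by
      abel
    rw [this, ← h1, hpq, sub_self]
  obtain ⟨h3, h4⟩ := LinearIndependent.pair_iff.1 hindep _ _ h2
  exact Prod.ext (by simpa [sub_eq_zero] using h3) (by simpa [sub_eq_zero] using h4)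

/-- Elliptic curves with complex multiplication by the same field are isogenous. -/
theorem ell_isog (Y Z : AV) (hY : finrank ℚ Y.H = 2) (hZ : finrank ℚ Z.H = 2) {d : ℚ}
    (uY : Unbalanced Y d) (uZ : Unbalanced Z d) :
    ∃ g : Y.H →ₗ[ℚ] Z.H, IsHom Y Z g ∧ Function.Injective g := by
  obtain ⟨hd, h, Ψ, -, hΨ, hsq, -⟩ := uY
  obtain ⟨-, k, Ψ', -, hΨ', hsq', -⟩ := uZ
  obtain ⟨c, v, hc, hv, hper, hdec⟩ := ell_data Y hY hd h ⟨Ψ, hΨ⟩ hsq
  -- the sign
  obtain ⟨k₁, hk₁, hk₂, hk₃⟩ : ∃ k₁ : Z.H →ₗ[ℚ] Z.H, (∀ w, Z.per (k₁ w) = c • Z.per w) ∧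
      (∀ w, k₁ (k₁ w) = -(d • w)) ∧ IsHom Z Z k₁ := by
    obtain ⟨c', v', hc', hv', hper', -⟩ := ell_data Z hZ hd k ⟨Ψ', hΨ'⟩ hsq'
    have h1 : (c' - c) * (c' + c) = 0 := by linear_combination hc' - hc
    rcases mul_eq_zero.1 h1 with h2 | h2
    · have h3 : c' = c := sub_eq_zero.1 h2
      exact ⟨k, fun w => by rw [hper', h3], hsq', Ψ', hΨ'⟩
    · have h3 : c' = -c := eq_neg_of_add_eq_zero_left h2
      refine ⟨-k, fun w => ?_, fun w => ?_, -Ψ', fun w => ?_⟩
      · rw [LinearMap.neg_apply, map_neg, hper', h3, neg_smul, neg_neg]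
      · rw [LinearMap.neg_apply, LinearMap.neg_apply, map_neg, neg_neg, hsq']
      · rw [LinearMap.neg_apply, hΨ', LinearMap.neg_apply, map_neg]
  obtain ⟨z, hz⟩ : ∃ z : Z.H, z ≠ 0 := by
    have : Nontrivial Z.H := Module.nontrivial_of_finrank_pos (R := ℚ) (by omega)
    exact exists_ne 0
  have hpv : Y.per v ≠ 0 := fun h0 => hv (per_inj Y (h0.trans (map_zero _).symm))
  have hpz : Z.per z ≠ 0 := fun h0 => hz (per_inj Z (h0.trans (map_zero _).symm))
  have hT : finrank ℂ Y.T = 1 := by
    have := Y.rank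
    omega
  -- the tangent map
  obtain ⟨Λ, hΛ⟩ : ∃ Λ : Y.T →ₗ[ℂ] Z.T, Λ (Y.per v) = Z.per z := by
    have hli : LinearIndependent ℂ (fun _ : Fin 1 => Y.per v) :=
      linearIndependent_unique_iff.2 hpv
    let b : Basis (Fin 1) ℂ Y.T := basisOfLinearIndependentOfCardEqFinrank hli (by
      rw [Fintype.card_fin, hT])
    have hb : b 0 = Y.per v := by simp [b]
    refine ⟨b.constr ℂ fun _ => Z.per z, ?_⟩
    rw [← hb, Basis.constr_basis]
  choose p hp hpu using hdec
  have hval : ∀ w, Λ (Y.per w) = Z.per ((p w).1 • z + (p w).2 • k₁ z) := by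
    intro w
    have h1 : Y.per w = (((p w).1 : ℝ) : ℂ) • Y.per v + (((p w).2 : ℝ) : ℂ) • (c • Y.per v) := by
      have h2 := hp w
      have h3 : Y.per w = Y.per ((p w).1 • v + (p w).2 • h v) := congrArg Y.per h2
      rw [h3, map_add, per_smulQ, per_smulQ, hper, Complex.coe_smul, Complex.coe_smul]
    rw [h1, map_add, map_smul, map_smul, map_smul, hΛ, map_add, per_smulQ, per_smulQ, hk₁,
      Complex.coe_smul, Complex.coe_smul]
  let g : Y.H →ₗ[ℚ] Z.H :=
    { toFun := fun w => (p w).1 • z + (p w).2 • k₁ z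
      map_add' := fun w w' => by
        apply per_inj Z
        have h1 : Z.per ((p (w + w')).1 • z + (p (w + w')).2 • k₁ z) = _ := (hval (w + w')).symm
        rw [h1, map_add Y.per, map_add Λ, hval, hval, ← map_add Z.per]
      map_smul' := fun a w => by
        apply per_inj Z
        rw [RingHom.id_apply, per_smulQ Z, ← hval, ← hval, per_smulQ Y]
        exact (Λ.restrictScalars ℝ).map_smul _ _ }
  have hg : ∀ w, g w = (p w).1 • z + (p w).2 • k₁ z := fun _ => rfl
  refine ⟨g, ⟨Λ, fun w => by rw [hval, hg]⟩, ?_⟩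
  rw [injective_iff_map_eq_zero]
  intro w hw
  have h1 : Λ (Y.per w) = 0 := by rw [hval, ← hg, hw, map_zero]
  obtain ⟨e, he⟩ := (finrank_eq_one_iff_of_nonzero' (Y.per v) hpv).1 hT (Y.per w)
  rw [← he, map_smul, hΛ] at h1
  have h2 := (smul_eq_zero.1 h1).resolve_right hpz
  apply per_inj Y
  rw [← he, h2, zero_smul, map_zero]

end

end Pool.Agent.N400.HX
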