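import Pool.Agent.N178.HX.StmF
import Pool.Agent.N400.HX.Red

/-!
# The Hodge conjecture for the class from products of CM types (project GHC3 of helper178): S_ALLT
-/

set_option autoImplicit false
set_option linter.unusedSectionVars false

namespace Pool.Agent.N400.HX

open Module Matrix Pool.Agent.Y90 Pool.Agent.R915 NumberField Pool.Agent.W437.HC
open Pool.Agent.H204R3.CM (IsHodge IsCMType)
open Pool.Agent.W547.KB (CMPair CMAV single)
open Pool.Agent.N830.HC (HasCMultIn av lc_of cm_of_factor)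
open Pool.Agent.N178.HX (ClsT S_ALLT)

noncomputable section

/-- Products of abelian varieties which are contained in abelian varieties of CM type. -/
theorem prod_sub (𝒜 : Sys) {Q : Type} [Fintype Q] [DecidableEq Q]
    {a : Q → ℕ} {Z' : ∀ q, Matrix (Fin (a q)) (Fin (a q)) ℂ}
    (h' : ∀ q, PM (Z' q)) (p : Q → CMPair)
    (hq : ∀ q, ∃ i : (AVZ (h' q)).H →ₗ[ℚ] (av (single (p q))).H,
      IsHom (AVZ (h' q)) (av (single (p q))) i ∧ Function.Injective i)
    (hp : 𝒜.AllHodge (av ⟨Q, p⟩)) : 𝒜.AllHodge (AVQ h') := by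
  choose i hi hinj using hq
  choose Ψ hΨ using hi
  let X : CMAV := ⟨Q, p⟩
  let g : (BQ a → ℚ) →ₗ[ℚ] X.H1 :=
    { toFun := fun w q => (i q (cQ q w) : (single (p q)).H1) ()
      map_add' := fun v w => by
        funext q
        exact congrFun (map_add (i q) (cQ q v) (cQ q w)) ()
      map_smul' := fun c v => by
        funext q
        exact congrFun (map_smul (i q) c (cQ q v)) () }
  let Θ : (AVQ h').T →ₗ[ℂ] X.Tan :=
    { toFun := fun t q => (Ψ q (t q) : (single (p q)).Tan) ()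
      map_add' := fun v w => by
        funext q
        exact congrFun (map_add (Ψ q) (v q) (w q)) ()
      map_smul' := fun c v => by
        funext q
        exact congrFun (map_smul (Ψ q) c (v q)) () }
  refine all_sub 𝒜 (X := AVQ h') (C := av X) g ⟨Θ, fun v => ?_⟩ ?_ hp
  · funext q
    exact congrFun (hΨ q (cQ q v)) ()
  · intro v w hvw
    funext ⟨q, j⟩
    have h1 : i q (cQ q v) = i q (cQ q w) := by
      funext u
      exact congrFun hvw q
    exact congrFun (hinj q h1) j

theorem t_ALLT : S_ALLT := by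
  intro K T 𝒜 hC X hX
  refine main_cm 𝒜 X (fun a Z' h' i hi hinj hsim ha => ?_) fun Q _ _ a Z' h' hc => ?_
  · rcases hX (AVZ h') ⟨hsim, i, hi, hinj⟩ with ⟨k, hk⟩ | ⟨hcm, k, -⟩
    · obtain ⟨j, hj⟩ := cm_of_factor (single (T k)) (AVZ h') hk
      exact Or.inr hj.cm
    · exact Or.inl ⟨hcm, lc_of h' hsim ha hcm k⟩
  · have key : ∀ q, ∃ k, ∃ i : (AVZ (h' q)).H →ₗ[ℚ] (av (single (T k))).H,
        IsHom (AVZ (h' q)) (av (single (T k))) i ∧ Function.Injective i := by
      intro q
      obtain ⟨h3, h4, h5 | ⟨h5, d, h6, Y', hY', hn, h7⟩⟩ := hc q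
      · rcases hX _ h5 with ⟨k, hk⟩ | ⟨k, -⟩
        · exact ⟨k, hk.2⟩
        · exact absurd h4 k
      · rcases hX _ hY' with ⟨k, hk⟩ | ⟨-, -, k⟩
        · obtain ⟨j, hj⟩ := cm_of_factor (single (T k)) Y' hk
          exact absurd hj.cm hn
        · obtain ⟨-, k, E, hE, hE2, hE3⟩ := k d h7
          obtain ⟨g, hg, hgi⟩ := ell_isog (AVZ (h' q)) E h5 hE2 h6 hE3
          obtain ⟨-, i, hi, hii⟩ := hE
          exact ⟨k, i.comp g, hom_comp hg hi, hii.comp hgi⟩
    choose k i hi hii using key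
    exact prod_sub 𝒜 h' (fun q => T (k q)) (fun q => ⟨i q, hi q, hii q⟩)
      (hC ⟨Q, fun q => T (k q)⟩ fun q => ⟨k q, rfl⟩)

end

end Pool.Agent.N400.HX
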